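import Pool.Agent.Helper77.SM.Basic
import Pool.Agent.Helper77.SO.Defs

/-!
# SM-ZP: matrices over the `p`-adic integers, a `p ^ t`-th power of which is unipotent
-/

set_option autoImplicit false

open Matrix IsLocalRing Polynomial

namespace Pool.Agent.Helper61.SM

/-- the polynomial `Φ (p ^ (i + 1)) (X + 1)` over the `p`-adic integers is Eisenstein -/
theorem eis (p : ℕ) [hp : Fact p.Prime] (i : ℕ) :
    ((cyclotomic (p ^ (i + 1)) ℤ_[p]).comp (X + 1)).IsEisensteinAt
      (Ideal.span {(p : ℤ_[p])}) := by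
  have h1 := cyclotomic_prime_pow_comp_X_add_one_isEisensteinAt (p := p) i
  have h2 : (cyclotomic (p ^ (i + 1)) ℤ_[p]).comp (X + 1)
      = ((cyclotomic (p ^ (i + 1)) ℤ).comp (X + 1)).map (Int.castRingHom ℤ_[p]) := by
    rw [Polynomial.map_comp, map_cyclotomic, Polynomial.map_add, map_X, Polynomial.map_one]
  have hmon : ((cyclotomic (p ^ (i + 1)) ℤ).comp (X + 1)).Monic := by
    rw [show (X + 1 : ℤ[X]) = X + C 1 by simp]
    refine (cyclotomic.monic _ ℤ).comp (monic_X_add_C 1) fun h => ?_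
    rw [natDegree_X_add_C] at h
    exact zero_ne_one h.symm
  have hpp : Prime (p : ℤ_[p]) := PadicInt.prime_p
  have hmem : ∀ (k : ℤ) (n : ℕ), ((k : ℤ_[p]) ∈ (Ideal.span {(p : ℤ_[p])}) ^ n) ↔
      (p : ℤ) ^ n ∣ k := by
    intro k n
    rw [Ideal.span_singleton_pow, ← PadicInt.norm_le_pow_iff_mem_span_pow,
      PadicInt.norm_int_le_pow_iff_dvd]
  rw [h2]
  refine Monic.isEisensteinAt_of_mem_of_notMem (hmon.map _) ?_ ?_ ?_
  · exact Ideal.IsPrime.ne_top ((Ideal.span_singleton_prime hpp.ne_zero).2 hpp)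
  · intro j hj
    rw [hmon.natDegree_map] at hj
    have h3 := h1.mem hj
    rw [coeff_map]
    have h4 := (hmem (((cyclotomic (p ^ (i + 1)) ℤ).comp (X + 1)).coeff j) 1).2 (by
      rw [pow_one]
      simpa [Ideal.submodule_span_eq, Ideal.mem_span_singleton] using h3)
    rw [pow_one] at h4
    exact h4
  · rw [coeff_map]
    intro h4
    have h5 := (hmem (((cyclotomic (p ^ (i + 1)) ℤ).comp (X + 1)).coeff 0) 2).1 h4
    apply h1.notMem
    rw [Ideal.submodule_span_eq, Ideal.span_singleton_pow, Ideal.mem_span_singleton]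
    exact h5

theorem irr (p : ℕ) [hp : Fact p.Prime] (i : ℕ) :
    Irreducible ((cyclotomic (p ^ (i + 1)) ℚ_[p]).comp (X + 1)) := by
  have hpp : Prime (p : ℤ_[p]) := PadicInt.prime_p
  have hmon : ((cyclotomic (p ^ (i + 1)) ℤ_[p]).comp (X + 1)).Monic := by
    rw [show (X + 1 : ℤ_[p][X]) = X + C 1 by simp]
    refine (cyclotomic.monic _ _).comp (monic_X_add_C 1) fun h => ?_
    rw [natDegree_X_add_C] at h
    exact zero_ne_one h.symm
  have hdeg : 0 < ((cyclotomic (p ^ (i + 1)) ℤ_[p]).comp (X + 1)).natDegree := by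
    rw [natDegree_comp, show (X + 1 : ℤ_[p][X]) = X + C 1 by simp, natDegree_X_add_C, mul_one,
      natDegree_cyclotomic]
    exact Nat.totient_pos.2 (pow_pos hp.out.pos _)
  have h1 := (eis p i).irreducible ((Ideal.span_singleton_prime hpp.ne_zero).2 hpp)
    hmon.isPrimitive hdeg
  have h2 := (Monic.irreducible_iff_irreducible_map_fraction_map (K := ℚ_[p]) hmon).1 h1
  rwa [Polynomial.map_comp, map_cyclotomic, Polynomial.map_add, map_X, Polynomial.map_one] at h2

theorem natDegree_P (p : ℕ) [hp : Fact p.Prime] (i : ℕ) :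
    p - 1 ≤ ((cyclotomic (p ^ (i + 1)) ℚ_[p]).comp (X + 1)).natDegree := by
  rw [natDegree_comp, show (X + 1 : ℚ_[p][X]) = X + C 1 by simp, natDegree_X_add_C, mul_one,
    natDegree_cyclotomic, Nat.totient_prime_pow hp.out (Nat.succ_pos _), Nat.add_one_sub_one]
  exact Nat.le_mul_of_pos_left _ (pow_pos hp.out.pos _)

/-- an irreducible polynomial of large degree is invertible at a matrix -/
theorem isUnit_aeval {K : Type} [Field K] {n : ℕ} (N : Matrix (Fin n) (Fin n) K) (P : K[X])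
    (hP : Irreducible P) (hd : n < P.natDegree) : IsUnit (aeval N P) := by
  have h1 : ¬ P ∣ N.charpoly := by
    intro h
    have h2 := natDegree_le_of_dvd h (charpoly_monic N).ne_zero
    rw [charpoly_natDegree_eq_dim, Fintype.card_fin] at h2
    omega
  obtain ⟨u, v, huv⟩ := (hP.coprime_iff_not_dvd.2 h1 : IsCoprime P N.charpoly)
  have h3 : aeval N u * aeval N P = 1 := by
    have h4 := congrArg (aeval N) huv
    rw [map_add, map_mul, map_mul, aeval_self_charpoly, mul_zero, add_zero, map_one] at h4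
    exact h4
  have h5 : aeval N P * aeval N u = 1 := by
    rw [← map_mul, mul_comm, map_mul]
    exact h3
  exact ⟨⟨aeval N P, aeval N u, h5, h3⟩, rfl⟩

theorem nil_step (p : ℕ) [hp : Fact p.Prime] {n : ℕ} (hn : n + 1 < p)
    (N : Matrix (Fin n) (Fin n) ℚ_[p]) (t : ℕ) (h : IsNilpotent ((N + 1) ^ p ^ t - 1)) :
    IsNilpotent N := by
  induction t with
  | zero => simpa using h
  | succ t ih =>
    apply ih
    have hu := isUnit_aeval N _ (irr p t) (by have := natDegree_P p t; omega)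
    have h1 := cyclotomic_prime_pow_mul_X_pow_sub_one ℚ_[p] p t
    have h2 := congrArg (fun f : ℚ_[p][X] => aeval N (f.comp (X + 1))) h1
    simp only [mul_comp, sub_comp, pow_comp, X_comp, one_comp, map_mul, map_sub, map_pow,
      map_add, aeval_X, map_one] at h2
    rw [← h2] at h
    obtain ⟨u, hu'⟩ := hu
    rw [← hu'] at h h2
    obtain ⟨m, hm⟩ := h
    have hcomm : Commute (u : Matrix (Fin n) (Fin n) ℚ_[p]) ((N + 1) ^ p ^ t - 1) := by
      rw [hu']
      have : ((N + 1) ^ p ^ t - 1) = aeval N ((X + 1) ^ p ^ t - 1 : ℚ_[p][X]) := by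
        simp
      rw [this]
      unfold Commute SemiconjBy
      rw [← map_mul, mul_comm, map_mul]
    rw [hcomm.mul_pow] at hm
    refine ⟨m, ?_⟩
    have h3 : IsUnit ((u : Matrix (Fin n) (Fin n) ℚ_[p]) ^ m) := u.isUnit.pow m
    exact (h3.mul_right_eq_zero).1 hm

theorem unipotent_of_pow (p : ℕ) [Fact p.Prime] {n : ℕ} (hn : n + 1 < p)
    (M : Matrix (Fin n) (Fin n) ℤ_[p]) (t : ℕ) (h : IsNilpotent (M ^ p ^ t - 1)) :
    (M - 1) ^ n = 0 := by
  obtain ⟨f, hf⟩ : ∃ f : Matrix (Fin n) (Fin n) ℤ_[p] →+* Matrix (Fin n) (Fin n) ℚ_[p],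
    f = (algebraMap ℤ_[p] ℚ_[p]).mapMatrix := ⟨_, rfl⟩
  have hinj : Function.Injective f := by
    rw [hf]
    exact Matrix.map_injective (IsFractionRing.injective ℤ_[p] ℚ_[p])
  have h1 : IsNilpotent (f (M ^ p ^ t - 1)) := h.map f
  have h2 : IsNilpotent (f (M - 1)) := by
    apply nil_step p hn _ t
    have : f (M - 1) + 1 = f M := by rw [map_sub, map_one]; abel
    rw [this]
    rwa [map_sub, map_pow, map_one] at h1
  have h3 := (Matrix.isNilpotent_charpoly_sub_pow_of_isNilpotent h2).eq_zero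
  rw [Fintype.card_fin, sub_eq_zero] at h3
  have h4 := aeval_self_charpoly (f (M - 1))
  rw [h3, map_pow, aeval_X] at h4
  apply hinj
  rw [map_pow, map_zero, h4]

end Pool.Agent.Helper61.SM
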